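import Pool.Agent.Run7.h74.AE.Iface
import Pool.Agent.Q247.UM.THP

set_option autoImplicit false
set_option linter.unusedVariables false

/-! # Project AE (helper74), piece THA: Theorem A -/

namespace Pool.Agent.Run7.h56.AE

open Filter Topology MeasureTheory Complex
open Pool.Agent.Q97.UM
open Pool.Agent.Q247.UM
open Pool.Agent.Run7.h74.AE

lemma pow3 (m : ℕ) {a b c : ℝ} (ha : 0 ≤ a) (hb : 0 ≤ b) (hc : 0 ≤ c) :
    (a + b + c) ^ m ≤ 4 ^ m * (a ^ m + b ^ m + c ^ m + 1) := by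
  have h := pow4 m ha hb hc (le_refl (0 : ℝ))
  rw [add_zero] at h
  refine h.trans (mul_le_mul_of_nonneg_left ?_ (by positivity))
  have h0 : (0 : ℝ) ^ m ≤ 1 := pow_le_one₀ le_rfl zero_le_one
  linarith

lemma ae_im (T : ℝ) : ∀ᵐ t : ℝ, ∀ s ∈ ZD T, s.im ≠ t := by
  have h1 : ((fun s : ℂ => s.im) '' (ZD T : Set ℂ)).Finite := (ZD T).finite_toSet.image _
  have h2 := h1.measure_zero (volume : Measure ℝ)
  have h3 : ∀ᵐ t : ℝ, t ∉ (fun s : ℂ => s.im) '' (ZD T : Set ℂ) :=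
    measure_eq_zero_iff_ae_notMem.1 h2
  filter_upwards [h3] with t ht s hs h
  exact ht ⟨s, hs, h⟩

lemma EA_meas (X : ℕ) : Measurable (EA X) := by
  unfold EA
  refine Measurable.neg (Finset.measurable_sum _ fun p hp => ?_)
  have hp' := (Finset.mem_filter.1 hp).2
  have h1 : Continuous (fun t : ℝ => (1 : ℂ) - (p : ℂ) ^ (-(1 / 2 + t * I))) :=
    continuous_const.sub (cpow_cont hp'.one_lt.le)
  exact Complex.measurable_im.comp (Complex.measurable_log.comp h1.measurable)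

/-- the pointwise inequality -/
lemma pointI {ψ₁ : ℝ → ℝ} {δ T CD CE t l : ℝ} (hT : 0 < T) (hCD : 0 ≤ CD) (hCE0 : 0 ≤ CE)
    (hD2 : 2 ≤ δ * Real.log T)
    (hCE : ∀ D t : ℝ, 2 ≤ D →
      |EA ⌊Real.exp D⌋₊ t - PPi ψ₁ D t - (dp ⌊Real.exp D⌋₊ (alp ψ₁ D ⌊Real.exp D⌋₊) t).im| ≤ CE)
    (h1 : |l - PPi ψ₁ (δ * Real.log T) t| ≤ CD * (1 + SS δ T t)) :
    |l - EA ⌊T ^ δ⌋₊ t| ≤ (CD + CE) + CD * SS δ T t +
        ‖dp ⌊T ^ δ⌋₊ (alp ψ₁ (δ * Real.log T) ⌊T ^ δ⌋₊) t‖ := by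
  have hexp : Real.exp (δ * Real.log T) = T ^ δ := by
    rw [Real.rpow_def_of_pos hT, mul_comm]
  have h2 := hCE (δ * Real.log T) t hD2
  rw [hexp] at h2
  have h3 := abs_le.1 h2
  have h4 := abs_le.1 (Complex.abs_im_le_norm (dp ⌊T ^ δ⌋₊ (alp ψ₁ (δ * Real.log T) ⌊T ^ δ⌋₊) t))
  have h5 := abs_le.1 h1
  rw [abs_le]
  constructor
  · linarith [h3.2, h4.2, h5.1]
  · linarith [h3.1, h4.1, h5.2]

lemma eul_alpI {ψ₁ k₀ : ℝ → ℝ} (hEU : S_EULI) (hK : Ker ψ₁ k₀) : ∃ CE : ℝ, 0 ≤ CE ∧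
    ∀ D t : ℝ, 2 ≤ D →
      |EA ⌊Real.exp D⌋₊ t - PPi ψ₁ D t - (dp ⌊Real.exp D⌋₊ (alp ψ₁ D ⌊Real.exp D⌋₊) t).im| ≤ CE := by
  obtain ⟨CE, hCE0, hCE⟩ := hEU ψ₁ k₀ hK
  refine ⟨CE, hCE0, fun D t hD => ?_⟩
  have h := hCE D t hD
  have e : dp ⌊Real.exp D⌋₊ (alp ψ₁ D ⌊Real.exp D⌋₊) t = dp ⌊Real.exp D⌋₊
      (fun n => open Classical in
        if n.Prime then ((1 - ψ₁ (Real.log n / D) : ℝ) : ℂ) else 0) t := by
    unfold dp
    refine Finset.sum_congr rfl fun n hn => ?_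
    congr 1
    unfold alp
    beta_reduce
    by_cases hp : n.Prime
    · rw [if_pos ⟨hp, (Finset.mem_Icc.1 hn).2⟩, if_pos hp]
    · rw [if_neg (fun h => hp h.1), if_neg hp]
  rw [e]
  convert h using 6

theorem t_THA : J_THA := by
  intro hKB hAR hMe hST hEU hPM hMV hex hTail m
  obtain ⟨ψ₁, k₀, hK⟩ := hex
  obtain ⟨θ₀, c, C₀, hθ0, hθ1, hc, hC0, hT⟩ := hTail
  obtain ⟨-, -, -, ⟨CL, hCL0, hCL⟩, -⟩ := hKB ψ₁ k₀ hK
  obtain ⟨CE, hCE0, hCE⟩ := eul_alpI hEU hK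
  have hm0 : (0 : ℝ) ≤ m := Nat.cast_nonneg m
  refine ⟨min (θ₀ / 2) (1 / 16), min (min (c / (16 * (m + 1))) (1 / (16 * (m + 1)))) (1 / 8),
    by positivity, by positivity, fun δ hδ hδ0 => ?_⟩
  have d1 : δ ≤ c / (16 * (m + 1)) := hδ0.trans ((min_le_left _ _).trans (min_le_left _ _))
  have d2 : δ ≤ 1 / (16 * (m + 1)) := hδ0.trans ((min_le_left _ _).trans (min_le_right _ _))
  have d3 : δ ≤ 1 / 8 := hδ0.trans (min_le_right _ _)
  have d1' : 16 * δ * (m + 1) ≤ c := by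
    rw [le_div_iff₀ (by positivity)] at d1
    linarith
  have d2' : ((m : ℝ) + 1) * δ ≤ 1 / 16 := by
    rw [le_div_iff₀ (by positivity)] at d2
    linarith
  set θ := min (θ₀ / 2) (1 / 16) with hθ
  have hθpos : 0 < θ := by positivity
  have hθle : θ ≤ θ₀ / 2 := min_le_left _ _
  have hθle2 : θ ≤ 1 / 16 := min_le_right _ _
  obtain ⟨CD, hCD0, hCD⟩ := hAR ψ₁ k₀ hK δ hδ d3
  obtain ⟨CS, hCS0, hCS⟩ := hST θ₀ c C₀ hθ0 hθ1 hc hC0 hT m δ hδ d1'
  have hSSB : SSB θ δ m CS := by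
    filter_upwards [hCS, eventually_ge_atTop 1] with T h h1 N hN b
    exact h N (hN.trans (Real.rpow_le_rpow_of_exponent_le h1 hθle)) b
  obtain ⟨CP, hCP0, hCP⟩ := hPM m CL δ (δ / 2) hCL0 (by positivity) (by linarith) d2'
  set C1 := CD + CE with hC1
  refine ⟨4 ^ m * ((C1 ^ m + 2) * 7 + CD ^ m * CS + CP), by positivity, ?_⟩
  filter_upwards [hCD, hSSB, hCP, big_T δ hδ] with T tD tS tP tB N hN b
  obtain ⟨B1, B2, B3, B4, B5⟩ := tB
  have hT0 : 0 < T := by linarith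
  have hN16 : (N : ℝ) ≤ T ^ (1 / 16 : ℝ) :=
    hN.trans (Real.rpow_le_rpow_of_exponent_le (by linarith) hθle2)
  set X := ⌊T ^ δ⌋₊ with hX
  set α := alp ψ₁ (δ * Real.log T) X with hα
  have hXle : (X : ℝ) ≤ T ^ δ := Nat.floor_le (by positivity)
  have hlogX : Real.log X ≤ δ * Real.log T := by
    have h1 := Real.log_le_log (by exact_mod_cast (by omega : 0 < X)) hXle
    rwa [Real.log_rpow hT0] at h1
  have iP := tP N X hN16 B2 hXle b α (fun n hn => alp_ne hn)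
    (fun n => alp_le hK.one hCL0 hCL B3 hlogX n)
  have iS := tS N hN b
  have iM := mvl4 hMV B1 N (hN16.trans B4) b
  have hN2 := N2_nonneg N b
  -- continuity
  have cB : Continuous (fun t => ‖dp N b t‖ ^ 2) := (dp_cont N b).norm.pow 2
  have cS : Continuous (fun t => SS δ T t ^ m * ‖dp N b t‖ ^ 2) :=
    ((SS_cont δ T (by linarith)).pow m).mul cB
  have cP : Continuous (fun t => ‖dp X α t‖ ^ (2 * m) * ‖dp N b t‖ ^ 2) :=
    ((dp_cont X α).norm.pow (2 * m)).mul cB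
  have nn : ∀ t, 0 ≤ ‖dp N b t‖ ^ 2 := fun t => by positivity
  have hle : T / 2 ≤ 4 * T := by linarith
  -- the bound
  have hpt : ∀ t, T / 2 ≤ t → t ≤ 4 * T → (∀ s ∈ ZD T, s.im ≠ t) →
      |az t - EA X t| ^ m * ‖dp N b t‖ ^ 2 ≤
      4 ^ m * ((C1 ^ m + 2) * ‖dp N b t‖ ^ 2 + CD ^ m * (SS δ T t ^ m * ‖dp N b t‖ ^ 2) +
        ‖dp X α t‖ ^ (2 * m) * ‖dp N b t‖ ^ 2) := by
    intro t ht1 ht2 hz
    have q := tD t (by linarith) (by linarith) hz
    have habs := pointI (t := t) hT0 hCD0 hCE0 B5 hCE q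
    have hS0 := SS_nonneg δ T t
    have hd0 := norm_nonneg (dp X α t)
    have h5 : |az t - EA X t| ^ m ≤
        4 ^ m * (C1 ^ m + (CD * SS δ T t) ^ m + ‖dp X α t‖ ^ m + 1) :=
      (pow_le_pow_left₀ (abs_nonneg _) habs m).trans
        (pow3 m (by positivity) (by positivity) hd0)
    have h6 := pow_two_m m hd0
    have h7 : |az t - EA X t| ^ m ≤
        4 ^ m * ((C1 ^ m + 2) + CD ^ m * SS δ T t ^ m + ‖dp X α t‖ ^ (2 * m)) := by
      refine h5.trans (mul_le_mul_of_nonneg_left ?_ (by positivity))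
      rw [mul_pow]
      linarith
    calc |az t - EA X t| ^ m * ‖dp N b t‖ ^ 2
        ≤ (4 ^ m * ((C1 ^ m + 2) + CD ^ m * SS δ T t ^ m +
            ‖dp X α t‖ ^ (2 * m))) * ‖dp N b t‖ ^ 2 := mul_le_mul_of_nonneg_right h7 (nn t)
      _ = _ := by ring
  have iiB : IntervalIntegrable (fun t => (C1 ^ m + 2) * ‖dp N b t‖ ^ 2) volume (T / 2) (4 * T) :=
    (cB.const_mul _).intervalIntegrable _ _
  have iiS : IntervalIntegrable (fun t => CD ^ m * (SS δ T t ^ m * ‖dp N b t‖ ^ 2)) volume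
      (T / 2) (4 * T) := (cS.const_mul _).intervalIntegrable _ _
  have iiP : IntervalIntegrable (fun t => ‖dp X α t‖ ^ (2 * m) * ‖dp N b t‖ ^ 2) volume
      (T / 2) (4 * T) := cP.intervalIntegrable _ _
  have iiA := ((iiB.add iiS).add iiP).const_mul (4 ^ m)
  have hmeas : Measurable (fun t => |az t - EA X t| ^ m * ‖dp N b t‖ ^ 2) := by
    have h0 : Measurable az := hMe
    have h1 : Measurable (fun t => |az t - EA X t|) :=
      measurable_norm.comp (h0.sub (EA_meas X))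
    exact (h1.pow_const m).mul cB.measurable
  have hae := ae_im T
  have hI : IntervalIntegrable (fun t => |az t - EA X t| ^ m * ‖dp N b t‖ ^ 2) volume
      (T / 2) (4 * T) := by
    refine iiA.mono_fun' hmeas.aestronglyMeasurable ?_
    rw [Set.uIoc_of_le hle]
    refine (ae_restrict_iff' measurableSet_Ioc).2 ?_
    filter_upwards [hae] with t ht hmem
    rw [Real.norm_of_nonneg (by positivity)]
    exact hpt t hmem.1.le hmem.2 ht
  refine ⟨hI, ?_⟩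
  have hmono := intervalIntegral.integral_mono_ae_restrict (μ := volume) hle hI iiA (by
    refine (ae_restrict_iff' measurableSet_Icc).2 ?_
    filter_upwards [hae] with t ht hmem
    exact hpt t hmem.1 hmem.2 ht)
  refine hmono.trans ?_
  have e1 : (∫ t in (T / 2)..(4 * T), 4 ^ m * ((C1 ^ m + 2) * ‖dp N b t‖ ^ 2 +
      CD ^ m * (SS δ T t ^ m * ‖dp N b t‖ ^ 2) +
      ‖dp X α t‖ ^ (2 * m) * ‖dp N b t‖ ^ 2)) =
      4 ^ m * ((C1 ^ m + 2) * (∫ t in (T / 2)..(4 * T), ‖dp N b t‖ ^ 2) +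
        CD ^ m * (∫ t in (T / 2)..(4 * T), SS δ T t ^ m * ‖dp N b t‖ ^ 2) +
        ∫ t in (T / 2)..(4 * T), ‖dp X α t‖ ^ (2 * m) * ‖dp N b t‖ ^ 2) := by
    rw [intervalIntegral.integral_const_mul, intervalIntegral.integral_add (iiB.add iiS) iiP,
      intervalIntegral.integral_add iiB iiS,
      intervalIntegral.integral_const_mul, intervalIntegral.integral_const_mul]
  rw [e1]
  have hS2 : ∫ t in (T / 2)..(4 * T), SS δ T t ^ m * ‖dp N b t‖ ^ 2 ≤ CS * T * N2 N b := by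
    refine le_trans ?_ iS
    refine intervalIntegral.integral_mono_interval (by linarith) hle (by linarith) ?_
      (cS.intervalIntegrable _ _)
    exact Eventually.of_forall fun t => mul_nonneg (pow_nonneg (SS_nonneg δ T t) m) (nn t)
  have h4m : (0 : ℝ) < 4 ^ m := by positivity
  calc 4 ^ m * ((C1 ^ m + 2) * (∫ t in (T / 2)..(4 * T), ‖dp N b t‖ ^ 2) +
        CD ^ m * (∫ t in (T / 2)..(4 * T), SS δ T t ^ m * ‖dp N b t‖ ^ 2) +
        ∫ t in (T / 2)..(4 * T), ‖dp X α t‖ ^ (2 * m) * ‖dp N b t‖ ^ 2)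
      ≤ 4 ^ m * ((C1 ^ m + 2) * (7 * T * N2 N b) + CD ^ m * (CS * T * N2 N b) +
        CP * T * N2 N b) := by
        gcongr
    _ = 4 ^ m * ((C1 ^ m + 2) * 7 + CD ^ m * CS + CP) * T * N2 N b := by ring

end Pool.Agent.Run7.h56.AE
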